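import Pool.Agent.H.MP_f0eba7_co.Main

namespace Pool.Agent.Results.MP_f0eba7_co.Split
open Pool.Agent.H.MP_f66848_co

theorem result (t : ℕ) (ht : 2 ≤ t) (n : Fin t → ℕ) (j : Fin t) (_hj : 1 ≤ n j)
    (h : ∀ i, i ≠ j → n i = 1) :
    chiPC (SimpleGraph.completeMultipartiteGraph (fun i => Fin (n i))) = ∑ i, (n i + 1) / 2 :=
  Pool.Agent.H.MP_f0eba7_co.main ht n j h

end Pool.Agent.Results.MP_f0eba7_co.Split
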